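import Pool.Agent.J6H83.Pk.Top
import Pool.Agent.J6H83.Pk.Grp
import Pool.Agent.H519R3.RS.LUS

/-!
MP_3029eb_ag: local uniformization, at all valuations, of the local rings of the quotients of the
spaces of `n × m`-matrices by infinitesimal group schemes of block triangular `n × n`-matrices with
arbitrary heights; for example the Frobenius kernels of all parabolic subgroups of `GL_n` and of
their unipotent radicals.

It follows from the resolution of singularities of these varieties (`Pool.Agent.J6H83.Pk`, helper83)
by the valuative criterion of properness (`Pool.Agent.H519R3.RS.LUS` of the starting files).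
-/

set_option autoImplicit false

open AlgebraicGeometry CategoryTheory MvPolynomial Pool.Agent.H920R2

namespace Pool.Agent.J6H25.LU.InfinitesimalBlockGroupsLU

/-- Local uniformization of the local ring `R`: for every valuation of the field of fractions `K` of
`R`, with valuation ring `V`, which is centred on `R`, there is a finitely generated `R`-subalgebra
`A` of `K` with `A ⊆ V` whose localization at the centre of the valuation is regular. -/
def AdmitsLU (R : Type) [CommRing R] [IsLocalRing R] : Prop :=
  ∀ (K : Type) [Field K] [Algebra R K] [IsFractionRing R K] (V : ValuationSubring K),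
    (∀ r : R, algebraMap R K r ∈ V) →
    (∀ r : R, r ∈ IsLocalRing.maximalIdeal R ↔ V.valuation (algebraMap R K r) < 1) →
    ∃ A : Subalgebra R K, A.FG ∧ (∀ a : A, (a : K) ∈ V) ∧
      ∃ Q : Ideal A, ∃ (_ : Q.IsPrime), (∀ a : A, a ∈ Q ↔ V.valuation (a : K) < 1) ∧
        IsRegularLocalRing (Localization.AtPrime Q)

/-- The points with values in `R` of the infinitesimal scheme of the `n × n`-matrices `g` with
`g_(i, l) ^ (p ^ h_(i, l)) = δ_(i, l)` for all `i` and `l`. -/
def IsPoint {n : ℕ} (p : ℕ) (h : Fin n → Fin n → ℕ) {R : Type*} [CommRing R]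
    (g : Matrix (Fin n) (Fin n) R) : Prop :=
  ∀ i l, g i l ^ (p ^ h i l) = if i = l then 1 else 0

section defs

variable (k : Type) [Field k]

/-- The homomorphism `X i j ↦ ∑ l, G i l * X l j` from the coordinate ring `k[X]` of the space of
`n × m`-matrices to the polynomial ring `k[X][G]`, where `X` and `G` are the generic
`n × m`-matrix and the generic `n × n`-matrix: left multiplication by `G`. -/
noncomputable def coaction (n m : ℕ) : MvPolynomial (Fin n × Fin m) k →ₐ[k]
    MvPolynomial (Fin n × Fin n) (MvPolynomial (Fin n × Fin m) k) :=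
  aeval fun u => ∑ l, X (u.1, l) * C (X (l, u.2))

variable (p : ℕ) {n : ℕ} (m : ℕ) (h : Fin n → Fin n → ℕ)

/-- The ideal of `k[X][G]` generated by the `G i l ^ (p ^ h i l) - δ i l`. It defines the product of
the infinitesimal scheme of `IsPoint` and the space of `n × m`-matrices. -/
noncomputable def kernelIdeal :
    Ideal (MvPolynomial (Fin n × Fin n) (MvPolynomial (Fin n × Fin m) k)) :=
  Ideal.span (Set.range fun u => X u ^ (p ^ h u.1 u.2) - if u.1 = u.2 then 1 else 0)

/-- The algebra of the functions on the space of `n × m`-matrices which are invariant under the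
left multiplications by the points of the infinitesimal scheme of `IsPoint`. -/
noncomputable def invariants : Subalgebra k (MvPolynomial (Fin n × Fin m) k) where
  carrier := {f | coaction k n m f - C f ∈ kernelIdeal k p m h}
  mul_mem' := (Pool.Agent.J6H83.Pk.Inv k p m h).mul_mem'
  add_mem' := (Pool.Agent.J6H83.Pk.Inv k p m h).add_mem'
  algebraMap_mem' := (Pool.Agent.J6H83.Pk.Inv k p m h).algebraMap_mem'

end defs

/-- Let `k` be a field of characteristic `p` and `n ≤ m`. Let `lv i`, `i < n`, be levels and
`h i l`, `i, l < n`, heights such that `h i l = 0` for `lv i < lv l` and `h i b ≤ h i l` for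
`lv l ≤ lv b ≤ lv i`. Then the `n × n`-matrices `g` with `g_(i, l) ^ (p ^ h_(i, l)) = δ_(i, l)` form
an (infinitesimal) subgroup scheme of `GL_n`, the algebra of the functions on the space of
`n × m`-matrices over `k` which are invariant under this group scheme, acting by left
multiplication, is of finite type, and its localizations `R` at all prime ideals `Q` admit local
uniformization. -/
theorem result (p : ℕ) [Fact p.Prime] (k : Type) [Field k] [CharP k p] (n m : ℕ)
    (hnm : n ≤ m) (lv : Fin n → ℕ) (h : Fin n → Fin n → ℕ)
    (h0 : ∀ i l, lv i < lv l → h i l = 0)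
    (h1 : ∀ i b l, lv l ≤ lv b → lv b ≤ lv i → h i b ≤ h i l) :
    (∀ (R : Type) [CommRing R] [Algebra k R],
      ∃ Γ : Subgroup (Matrix.GeneralLinearGroup (Fin n) R),
        ∀ g : Matrix (Fin n) (Fin n) R, IsPoint p h g ↔ ∃ γ ∈ Γ, (γ : Matrix _ _ R) = g) ∧
    Algebra.FiniteType k (invariants k p m h) ∧
    ∀ (Q : Ideal (invariants k p m h)) [Q.IsPrime] (R : Type) [CommRing R] [IsLocalRing R]
      [Algebra (invariants k p m h) R] [IsLocalization.AtPrime R Q], AdmitsLU R := by
  refine ⟨?_, ?_, ?_⟩
  · intro R _ _
    refine ⟨{ carrier := {γ | IsPoint p h (γ : Matrix (Fin n) (Fin n) R)}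
              mul_mem' := ?_
              one_mem' := ?_
              inv_mem' := ?_ }, ?_⟩
    · intro a b ha hb
      exact Pool.Agent.J6H83.Pk.mul_points k h0 h1 ha hb
    · intro i l
      have hpos : p ^ h i l ≠ 0 := (pow_pos (Fact.out : p.Prime).pos _).ne'
      rw [Units.val_one, Matrix.one_apply]
      split_ifs
      · exact one_pow _
      · exact zero_pow hpos
    · intro a ha
      have h2 := (Pool.Agent.J6H83.Pk.inv_points k h0 h1 ha).2
      intro i l
      rw [Matrix.coe_units_inv]
      exact h2 i l
    · intro g
      constructor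
      · intro hg
        have h2 := (Pool.Agent.J6H83.Pk.inv_points k h0 h1 hg).1
        refine ⟨Matrix.nonsingInvUnit g h2, ?_, rfl⟩
        exact hg
      · rintro ⟨γ, hγ, rfl⟩
        exact hγ
  · exact Pool.Agent.J6H83.Pk.finiteType
  · intro Q _ R _ _ _ _
    have h3 : HasResolution (X := Spec (CommRingCat.of (invariants k p m h)))
        (Spec.map (CommRingCat.ofHom (algebraMap k (invariants k p m h)))) :=
      Pool.Agent.J6H83.Pk.hasResolution hnm h0 h1
    exact Pool.Agent.H519R3.RS.admitsLU_of_res h3 Q R

end Pool.Agent.J6H25.LU.InfinitesimalBlockGroupsLU
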